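import Pool.Agent.H792_Clique.CodNine

/-!
10-CLIQUE on graphs in which cliques have many common neighbours: a dichotomy for time
`O(p ^ 7.5)`.
-/

set_option autoImplicit false

namespace Pool.Agent.Results.MP_9c8b33_lc.CodegreeDichotomy

open Pool.Agent.H792_Clique

/-- Let `θ 1, …, θ 9` be real numbers with `θ j ≠ (10 - j) (9 - j) / 90`, and let `cls` be any
class of graphs which contains all 10-colourable graphs in which every set of `j` vertices has at
least `θ j * p` common neighbours (`1 ≤ j ≤ 9`), and in whose members every clique on `j` vertices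
has at least `θ j * p` common neighbours (`1 ≤ j ≤ 9`). Then 10-CLIQUE can be solved in time
`O(p ^ 7.5)` on `cls` if and only if `θ j > (10 - j) (9 - j) / 90` for some `j`, or 10-CLIQUE can
be solved in time `O(p ^ 7.5)` on all graphs. -/
theorem result (θ : ℕ → ℝ) (hθ : ∀ j ∈ Finset.Icc 1 9, θ j ≠ (10 - j) * (9 - j) / 90)
    (cls : ∀ p : ℕ, SimpleGraph (Fin p) → Prop)
    (hlower : ∀ (p : ℕ) (G : SimpleGraph (Fin p)), G.Colorable 10 →
      (∀ j ∈ Finset.Icc 1 9, ∀ J : Finset (Fin p), J.card = j → θ j * p ≤ cnb G J) → cls p G)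
    (hupper : ∀ (p : ℕ) (G : SimpleGraph (Fin p)), cls p G →
      ∀ j ∈ Finset.Icc 1 9, ∀ J : Finset (Fin p), G.IsNClique j J → θ j * p ≤ cnb G J) :
    SolvesIn 7.5 cls ↔
      ((∃ j ∈ Finset.Icc 1 9, (10 - j) * (9 - j) / 90 < θ j) ∨ SolvesIn 7.5 allGraphs) :=
  cod_dichotomy hθ hlower hupper

end Pool.Agent.Results.MP_9c8b33_lc.CodegreeDichotomy
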