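import Pool.Agent.H792_Clique.Deg2

/-!
10-CLIQUE on graphs with the vertex degrees in an interval: a dichotomy for time `O(p ^ 7.5)`.
-/

set_option autoImplicit false

namespace Pool.Agent.Results.MP_9c8b33_lc.DegreeDichotomy

open Pool.Agent.H792_Clique

/-- Let `0 ≤ a < b` with `a ≠ 4 / 5`, and let `cls` be any class of graphs which contains all
10-partite graphs with ten parts of the same size and all degrees between `a * p` and `b * p`, and
in whose members every vertex has degree at least `a * p` or at most `p ^ 0.87`. Then 10-CLIQUE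
can be solved in time `O(p ^ 7.5)` on `cls` if and only if `a > 4 / 5`, or 10-CLIQUE can be solved
in time `O(p ^ 7.5)` on all graphs. -/
theorem result (a b : ℝ) (ha : 0 ≤ a) (hab : a < b) (ha' : a ≠ 4 / 5)
    (cls : ∀ p : ℕ, SimpleGraph (Fin p) → Prop)
    (hlower : ∀ (p : ℕ) (G : SimpleGraph (Fin p)), Balanced G →
      (∀ v, a * p ≤ dgr G v ∧ (dgr G v : ℝ) ≤ b * p) → cls p G)
    (hupper : ∀ (p : ℕ) (G : SimpleGraph (Fin p)), cls p G →
      ∀ v, a * p ≤ dgr G v ∨ (dgr G v : ℝ) ≤ (p : ℝ) ^ (0.87 : ℝ)) :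
    SolvesIn 7.5 cls ↔ (4 / 5 < a ∨ SolvesIn 7.5 allGraphs) :=
  deg_dichotomy ha hab ha' hlower hupper

end Pool.Agent.Results.MP_9c8b33_lc.DegreeDichotomy
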