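import Pool.Agent.H792_Clique.Prof2

/-!
10-CLIQUE on graphs with a condition on the common neighbourhoods of at most six vertices of a
10-clique: a dichotomy for time `O(p ^ 7.5)`.
-/

set_option autoImplicit false

namespace Pool.Agent.Results.MP_9c8b33_lc.ProfileDichotomy

open Pool.Agent.H792_Clique

/-- Let `C` be a set of vectors indexed by the sets of at most six of the ten positions, such that
the interior of `C` meets the set `hull8` of the vectors `(P (J ⊆ T))_J`, `T` a random set of at
most eight positions, or the closure of `C` does not meet it. Let `cls` be a class of graphs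
which contains all 10-colourable graphs whose 10-cliques can all be ordered such that the vector
of the densities of the common neighbourhoods is in `C`, and whose members are free of 10-cliques or have
an ordered 10-clique whose vector is in `C`. Then 10-CLIQUE can be solved in time `O(p ^ 7.5)` on
`cls` if and only if the closure of `C` does not meet `hull8`, or 10-CLIQUE can be solved in time
`O(p ^ 7.5)` on all graphs. -/
theorem result (C : Set (Sm → ℝ))
    (hC : (interior C ∩ hull8).Nonempty ∨ Disjoint (closure C) hull8)
    (cls : ∀ p : ℕ, SimpleGraph (Fin p) → Prop)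
    (hlower : ∀ (p : ℕ) (G : SimpleGraph (Fin p)), G.Colorable 10 →
      (∀ Q : Finset (Fin p), G.IsNClique 10 Q →
      ∃ q : Fin 10 → Fin p, OrdClique G q ∧ Finset.univ.image q = Q ∧ prof G q ∈ C) → cls p G)
    (hupper : ∀ (p : ℕ) (G : SimpleGraph (Fin p)), cls p G → ¬ G.CliqueFree 10 →
      ∃ q : Fin 10 → Fin p, OrdClique G q ∧ prof G q ∈ C) :
    SolvesIn 7.5 cls ↔ (Disjoint (closure C) hull8 ∨ SolvesIn 7.5 allGraphs) :=
  prof_dichotomy hC hlower hupper

end Pool.Agent.Results.MP_9c8b33_lc.ProfileDichotomy
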